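import Pool.Agent.helper25.TW.Spec

set_option autoImplicit false

namespace TP.TW

open DP MeasureTheory Finset

theorem VSP_prob : IsProbabilityMeasure P1 := by
  unfold P1
  infer_instance

theorem VSP_nonneg (F : Set (V → Bool)) : 0 ≤ Pr F := measureReal_nonneg

theorem VSP_mono {F G : Set (V → Bool)} (h : F ⊆ G) : Pr F ≤ Pr G := by
  have := VSP_prob
  exact measureReal_mono h

theorem VSP_le_one (F : Set (V → Bool)) : Pr F ≤ 1 := by
  have := VSP_prob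
  exact measureReal_le_one

theorem VSP_geom (q : ℝ) (h0 : 0 ≤ q) (h1 : q < 1) (M : ℕ) : ∑ j ∈ range M, q ^ (j + 1) ≤ 1 / (1 - q) := by
  have h2 : (∑ j ∈ range M, q ^ j) * (1 - q) = 1 - q ^ M := geom_sum_mul_neg q M
  have h3 : 0 < 1 - q := by linarith
  have h4 : ∑ j ∈ range M, q ^ (j + 1) ≤ ∑ j ∈ range M, q ^ j := by
    refine sum_le_sum fun j _ => ?_
    rw [pow_succ]
    exact mul_le_of_le_one_right (pow_nonneg h0 _) h1.le
  refine h4.trans ?_
  rw [le_div_iff₀ h3, h2]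
  have := pow_nonneg h0 M
  linarith

open Classical in
theorem VSP_core (ct0 : CT0_stmt) (men : MEN_stmt) (det : DET_stmt) (lcr : LCR_stmt) (ein : EIN_stmt)
    (bkm : BKM_stmt) (trs : TRS_stmt) (c₀ : ℝ) (hc0 : 0 < c₀) (hc1 : c₀ ≤ 1) (o k : Bool) (S : Finset V)
    (a b d e a' b' d' e' : ℤ) (s : ℕ) (hab : a' ≤ b') (hde : d' ≤ e')
    (hm : ∀ (c : V → Bool) (W : Set V) (i j : ℤ), 0 ≤ i → i ≤ s → 0 ≤ j → j ≤ s →
      crs o c k W (a + 2 * i) (b + 2 * i) (d + 2 * j) (e + 2 * j) → crs o c k W a' b' d' e')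
    (hq : Pr (Ev fun c => crs o c k Set.univ a' b' d' e') ≤ 1 - c₀) :
    ((s : ℝ) + 1) ^ 2 * Pr (Ev fun c => crs o c k (til S) a b d e) ≤ #S / c₀ := by
  set p := Pr (Ev fun c => crs o c k (til S) a b d e) with hp
  let g : ℕ × ℕ → ℤ × ℤ := fun x => (2 * (x.1 : ℤ), 2 * (x.2 : ℤ))
  have hg : Function.Injective g := by
    rintro ⟨x, y⟩ ⟨z, w⟩ h
    simp only [g, Prod.mk.injEq] at h ⊢
    omega
  let T : Finset (ℤ × ℤ) := (range (s + 1) ×ˢ range (s + 1)).image g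
  have hT : #T = (s + 1) ^ 2 := by
    rw [card_image_of_injective _ hg, card_product, card_range, sq]
  let F : ℤ × ℤ → Set (V → Bool) := fun τ => Ev fun c => crs o c k (til (shf τ S)) a' b' d' e'
  let G : ℕ → Set (V → Bool) := fun j => Ev fun c => many o c k a' b' d' e' (j + 1)
  let M : ℕ := (b' - a' + 1).toNat + (e' - d' + 1).toNat
  have hM1 : b' - a' + 1 ≤ (M : ℤ) := by simp only [M]; omega
  have hM2 : e' - d' + 1 ≤ (M : ℤ) := by simp only [M]; omega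
  have h1 : ∀ τ ∈ T, p ≤ Pr (F τ) := by
    intro τ hτ
    obtain ⟨⟨x, y⟩, hx, rfl⟩ := mem_image.1 hτ
    rw [mem_product, mem_range, mem_range] at hx
    have h2 := trs o k S a b d e x y
    rw [hp, ← h2]
    refine VSP_mono fun β hβ => ?_
    exact hm (col β) _ x y (by omega) (by omega) (by omega) (by omega) hβ
  have h2 : ∀ β : V → Bool, #{τ ∈ T | β ∈ F τ} ≤ #S * #{j ∈ range M | β ∈ G j} := by
    intro β
    have hex : ∃ K, cut o (col β) k a' b' d' e' K := ⟨M, ct0 o (col β) k a' b' d' e' M hab hde hM1 hM2⟩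
    have hK := Nat.find_spec hex
    set K := Nat.find hex with hKd
    have hKM : K ≤ M := Nat.find_min' hex (ct0 o (col β) k a' b' d' e' M hab hde hM1 hM2)
    have h3 : range K ⊆ {j ∈ range M | β ∈ G j} := by
      intro j hj
      rw [mem_range] at hj
      rw [mem_filter, mem_range]
      refine ⟨lt_of_lt_of_le hj hKM, ?_⟩
      have h4 : ¬ cut o (col β) k a' b' d' e' j := Nat.find_min hex hj
      exact (men o β k a' b' d' e' j hab hde).resolve_left h4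
    have h4 := card_le_card h3
    rw [card_range] at h4
    have h5 := det o β k a' b' d' e' K S T hK
    calc #{τ ∈ T | β ∈ F τ} = #{τ ∈ T | crs o (col β) k (til (shf τ S)) a' b' d' e'} := rfl
      _ ≤ K * #S := h5
      _ = #S * K := Nat.mul_comm _ _
      _ ≤ #S * #{j ∈ range M | β ∈ G j} := Nat.mul_le_mul_left _ h4
  have h3 := ein (ℤ × ℤ) ℕ T (range M) F G (rect a' b' d' e') #S
    (fun τ _ => lcr.1 o k (til (shf τ S)) a' b' d' e') (fun j _ => lcr.2.1 o k a' b' d' e' (j + 1)) h2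
  have h4 : ∑ j ∈ range M, Pr (G j) ≤ 1 / c₀ := by
    have h5 : ∀ j ∈ range M, Pr (G j) ≤ (1 - c₀) ^ (j + 1) := by
      intro j _
      refine (bkm o k a' b' d' e' (j + 1)).trans ?_
      exact pow_le_pow_left₀ (VSP_nonneg _) hq _
    refine (sum_le_sum h5).trans ?_
    have h6 := VSP_geom (1 - c₀) (by linarith) (by linarith) M
    have h7 : 1 - (1 - c₀) = c₀ := by ring
    rwa [h7] at h6
  have h5 : ((s : ℝ) + 1) ^ 2 * p ≤ ∑ τ ∈ T, Pr (F τ) := by
    have h6 := sum_le_sum h1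
    rw [sum_const, hT, nsmul_eq_mul] at h6
    push_cast at h6
    exact h6
  calc ((s : ℝ) + 1) ^ 2 * p ≤ ∑ τ ∈ T, Pr (F τ) := h5
    _ ≤ #S * ∑ j ∈ range M, Pr (G j) := h3
    _ ≤ #S * (1 / c₀) := mul_le_mul_of_nonneg_left h4 (Nat.cast_nonneg _)
    _ = #S / c₀ := by ring

theorem VSP_small (o k : Bool) (S : Finset V) (a b d e : ℤ) (t : ℕ) (L : ℤ) (ht : 1 ≤ t) (htL : (t : ℤ) < L) (C : ℝ)
    (hC : (L : ℝ) ^ 2 ≤ C) : Pr (Ev fun c => crs o c k (til S) a b d e) ≤ C * #S / (t : ℝ) ^ 2 := by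
  have ht0 : (0 : ℝ) < (t : ℝ) ^ 2 := by positivity
  rcases S.eq_empty_or_nonempty with h | h
  · subst h
    have h1 : (Ev fun c => crs o c k (til ∅) a b d e) = ∅ := by
      ext β
      simp only [Set.mem_empty_iff_false, iff_false]
      rintro ⟨u, v, _, h2⟩
      have h3 := h2.1.1.2
      simp [til] at h3
    rw [h1]
    simp [Pr]
  · rw [le_div_iff₀ ht0]
    have h1 : (1 : ℝ) ≤ #S := by exact_mod_cast card_pos.2 h
    have h2 : (t : ℝ) < L := by exact_mod_cast htL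
    have h3 : (t : ℝ) ^ 2 ≤ (L : ℝ) ^ 2 := pow_le_pow_left₀ (Nat.cast_nonneg _) h2.le 2
    have h4 := VSP_le_one (Ev fun c => crs o c k (til S) a b d e)
    have h5 := VSP_nonneg (Ev fun c => crs o c k (til S) a b d e)
    calc _ ≤ 1 * (t : ℝ) ^ 2 := mul_le_mul_of_nonneg_right h4 ht0.le
      _ ≤ C := by linarith
      _ ≤ C * #S := le_mul_of_one_le_right (ht0.le.trans (h3.trans hC)) h1

theorem VSP_fin (p c₀ C n : ℝ) (s t : ℕ) (hc0 : 0 < c₀) (hC : 256 / c₀ ≤ C) (ht : 1 ≤ t) (hs : t ≤ 16 * (s + 1)) (hp : 0 ≤ p) (hn : 0 ≤ n)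
    (h : ((s : ℝ) + 1) ^ 2 * p ≤ n / c₀) : p ≤ C * n / (t : ℝ) ^ 2 := by
  have ht0 : (0 : ℝ) < (t : ℝ) ^ 2 := by positivity
  rw [le_div_iff₀ ht0]
  have h1 : (t : ℝ) ≤ 16 * ((s : ℝ) + 1) := by exact_mod_cast hs
  have h2 : (t : ℝ) ^ 2 ≤ (16 * ((s : ℝ) + 1)) ^ 2 := pow_le_pow_left₀ (Nat.cast_nonneg _) h1 2
  calc p * (t : ℝ) ^ 2 ≤ p * (16 * ((s : ℝ) + 1)) ^ 2 := mul_le_mul_of_nonneg_left h2 hp
    _ = 256 * (((s : ℝ) + 1) ^ 2 * p) := by ring
    _ ≤ 256 * (n / c₀) := by linarith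
    _ = 256 / c₀ * n := by ring
    _ ≤ C * n := mul_le_mul_of_nonneg_right hC hn

theorem VSP (mno : MNO_stmt) (ct0 : CT0_stmt) (men : MEN_stmt) (det : DET_stmt) (lcr : LCR_stmt) (ein : EIN_stmt)
    (bkm : BKM_stmt) (qrs : QRS_stmt) (trs : TRS_stmt) : VSP_stmt := by
  obtain ⟨c₀, hc0, hc1, L, hL, hq⟩ := qrs
  have hC1 : (256 / c₀ : ℝ) ≤ 256 / c₀ + (L : ℝ) ^ 2 := by have := sq_nonneg (L : ℝ); linarith
  have hC2 : (L : ℝ) ^ 2 ≤ 256 / c₀ + (L : ℝ) ^ 2 := by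
    have : (0 : ℝ) < 256 / c₀ := by positivity
    linarith
  refine ⟨256 / c₀ + (L : ℝ) ^ 2, by positivity, ?_⟩
  intro k S t a d ht
  by_cases htL : (t : ℤ) < L
  · exact ⟨VSP_small true k S _ _ _ _ t L ht htL _ hC2, VSP_small false k S _ _ _ _ t L ht htL _ hC2⟩
  have hs : 16 * (t / 16) ≤ t := Nat.mul_div_le t 16
  have hs2 : t ≤ 16 * (t / 16 + 1) := by omega
  set s := t / 16 with hsd
  constructor
  · refine VSP_fin _ c₀ _ _ s t hc0 hC1 ht hs2 (VSP_nonneg _) (Nat.cast_nonneg _) ?_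
    refine VSP_core ct0 men det lcr ein bkm trs c₀ hc0 hc1 true k S a (a + 6 * t) d (d + 2 * t)
      a (a + 6 * t + 2 * s) (d + 2 * s) (d + 2 * t) s (by omega) (by omega) ?_ ?_
    · intro c W i j hi0 hi hj0 hj h
      exact (mno c k W (a + 2 * i) (a + 6 * t + 2 * i) (d + 2 * j) (d + 2 * t + 2 * j)
        a (a + 6 * t + 2 * s) (d + 2 * s) (d + 2 * t)).1 (by omega) (by omega) (by omega) (by omega) (by omega) h
    · exact (hq k a (a + 6 * t + 2 * s) (d + 2 * s) (d + 2 * t) (by omega) (by omega)).1 (by omega) (by omega)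
  · refine VSP_fin _ c₀ _ _ s t hc0 hC1 ht hs2 (VSP_nonneg _) (Nat.cast_nonneg _) ?_
    refine VSP_core ct0 men det lcr ein bkm trs c₀ hc0 hc1 false k S a (a + 2 * t) d (d + 6 * t)
      (a + 2 * s) (a + 2 * t) d (d + 6 * t + 2 * s) s (by omega) (by omega) ?_ ?_
    · intro c W i j hi0 hi hj0 hj h
      exact (mno c k W (a + 2 * i) (a + 2 * t + 2 * i) (d + 2 * j) (d + 6 * t + 2 * j)
        (a + 2 * s) (a + 2 * t) d (d + 6 * t + 2 * s)).2 (by omega) (by omega) (by omega) (by omega) (by omega) h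
    · exact (hq k (a + 2 * s) (a + 2 * t) d (d + 6 * t + 2 * s) (by omega) (by omega)).2 (by omega) (by omega)

end TP.TW
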